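import Pool.Agent.GeoNet.Frame

set_option autoImplicit false

open Classical

namespace Pool.Agent.Results.MP_b48dd4_gt.GromovBound

/-- The Euclidean plane. -/
abbrev Plane := EuclideanSpace ℝ (Fin 2)

/-- The vertices joined to `v` by an edge. -/
noncomputable def neighbours (V : Finset Plane) (E : Finset (Sym2 Plane)) (v : Plane) :
    Finset Plane :=
  V.filter (fun w => s(v, w) ∈ E)

/-- `Imb(v)`: the sum of the unit vectors at `v` pointing along the edges incident to `v`. -/
noncomputable def imbalanceVector (V : Finset Plane) (E : Finset (Sym2 Plane)) (v : Plane) :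
    Plane :=
  ∑ w ∈ neighbours V E v, ‖w - v‖⁻¹ • (w - v)

/-- A geodesic net in the Euclidean plane: a finite set `V` of vertices and a finite set `E` of
edges; an edge `s(p, q)` is the straight segment joining its endpoints `p, q ∈ V`. Edges are
nondegenerate and two distinct edges meet at most in a common endpoint. Every vertex has degree
at least `1` and every balanced vertex has degree at least `3`. -/
structure GeodesicNet where
  /-- the vertices -/
  V : Finset Plane
  /-- the edges -/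
  E : Finset (Sym2 Plane)
  endpoints : ∀ p q, s(p, q) ∈ E → p ∈ V ∧ q ∈ V
  nondegenerate : ∀ p q, s(p, q) ∈ E → p ≠ q
  embedded : ∀ p q r t, s(p, q) ∈ E → s(r, t) ∈ E → s(p, q) ≠ s(r, t) →
    ∀ x, x ∈ segment ℝ p q → x ∈ segment ℝ r t → (x = p ∨ x = q) ∧ (x = r ∨ x = t)
  degree_pos : ∀ v ∈ V, 1 ≤ (neighbours V E v).card
  degree_balanced : ∀ v ∈ V, imbalanceVector V E v = 0 → 3 ≤ (neighbours V E v).card

/-- The balanced vertices of a net. -/
noncomputable def GeodesicNet.balanced (G : GeodesicNet) : Finset Plane :=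
  G.V.filter (fun v => imbalanceVector G.V G.E v = 0)

/-- The unbalanced vertices of a net. -/
noncomputable def GeodesicNet.unbalanced (G : GeodesicNet) : Finset Plane :=
  G.V.filter (fun v => imbalanceVector G.V G.E v ≠ 0)

/-- The total imbalance of a net: the sum of the imbalances `imb(v) = |Imb(v)|` over its
unbalanced vertices. -/
noncomputable def GeodesicNet.totalImbalance (G : GeodesicNet) : ℝ :=
  ∑ v ∈ G.unbalanced, ‖imbalanceVector G.V G.E v‖

/-! ### Plane geometry -/

/-- cross product -/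
def cross (d e : Plane) : ℝ := d 0 * e 1 - d 1 * e 0

lemma norm_sq (p : Plane) : ‖p‖ ^ 2 = p 0 ^ 2 + p 1 ^ 2 := by
  rw [EuclideanSpace.real_norm_sq_eq]; simp [Fin.sum_univ_two]

lemma exists_smul_of_cross {d e : Plane} (hd : d ≠ 0) (h : cross d e = 0) :
    ∃ l : ℝ, e = l • d := by
  have hn : 0 < d 0 ^ 2 + d 1 ^ 2 := by
    rw [← norm_sq]
    have := norm_pos_iff.mpr hd
    positivity
  refine ⟨(d 0 * e 0 + d 1 * e 1) / (d 0 ^ 2 + d 1 ^ 2), ?_⟩
  unfold cross at h
  ext i
  fin_cases i
  · simp only [PiLp.smul_apply, smul_eq_mul]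
    simp
    field_simp
    linear_combination (- d 1) * h
  · simp only [PiLp.smul_apply, smul_eq_mul]
    simp
    field_simp
    linear_combination (d 0) * h

lemma no_overlap (G : GeodesicNet) {v p q : Plane} (hp : s(v, p) ∈ G.E) (hq : s(v, q) ∈ G.E)
    (hpq : p ≠ q) {l : ℝ} (hl : 0 < l) (h : q - v = l • (p - v)) : False := by
  have key : ∀ (p q : Plane) (l : ℝ), s(v, p) ∈ G.E → s(v, q) ∈ G.E → p ≠ q → 0 < l → l ≤ 1 →
      q - v = l • (p - v) → False := by
    intro p q l hp hq hpq hl hl1 h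
    have hne : s(v, p) ≠ s(v, q) := by
      intro he
      rw [Sym2.eq_iff] at he
      rcases he with ⟨_, he⟩ | ⟨he, he'⟩
      · exact hpq he
      · exact hpq (he'.trans he)
    have h1 : q ∈ segment ℝ v p := by
      rw [segment_eq_image']
      exact ⟨l, ⟨hl.le, hl1⟩, by simp only; rw [← h]; abel⟩
    have h2 : q ∈ segment ℝ v q := right_mem_segment ℝ v q
    have h3 := (G.embedded v p v q hp hq hne q h1 h2).1
    rcases h3 with h3 | h3
    · exact G.nondegenerate v q hq h3.symm
    · exact hpq h3.symm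
  rcases le_total l 1 with hl1 | hl1
  · exact key p q l hp hq hpq hl hl1 h
  · refine key q p l⁻¹ hq hp hpq.symm (by positivity) ?_ ?_
    · exact inv_le_one_of_one_le₀ hl1
    · rw [h, smul_smul, inv_mul_cancel₀ hl.ne', one_smul]

lemma exists_nonparallel (G : GeodesicNet) {v : Plane} (h : 3 ≤ (neighbours G.V G.E v).card) :
    ∃ q q', s(v, q) ∈ G.E ∧ s(v, q') ∈ G.E ∧ cross (q - v) (q' - v) ≠ 0 := by
  obtain ⟨a, b, c, ha, hb, hc, hab, hac, hbc⟩ := Finset.two_lt_card_iff.mp h
  have ha' : s(v, a) ∈ G.E := (Finset.mem_filter.mp ha).2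
  have hb' : s(v, b) ∈ G.E := (Finset.mem_filter.mp hb).2
  have hc' : s(v, c) ∈ G.E := (Finset.mem_filter.mp hc).2
  by_contra hcon
  push Not at hcon
  have hane : a - v ≠ 0 := sub_ne_zero.mpr (fun h => G.nondegenerate v a ha' h.symm)
  have hbne : b - v ≠ 0 := sub_ne_zero.mpr (fun h => G.nondegenerate v b hb' h.symm)
  have hcne : c - v ≠ 0 := sub_ne_zero.mpr (fun h => G.nondegenerate v c hc' h.symm)
  obtain ⟨l, hl⟩ := exists_smul_of_cross hane (hcon a b ha' hb')
  obtain ⟨m, hm⟩ := exists_smul_of_cross hane (hcon a c ha' hc')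
  have hl0 : l ≠ 0 := by
    rintro rfl
    rw [zero_smul] at hl
    exact hbne hl
  have hm0 : m ≠ 0 := by
    rintro rfl
    rw [zero_smul] at hm
    exact hcne hm
  rcases lt_or_gt_of_ne hl0 with h1 | h1
  · rcases lt_or_gt_of_ne hm0 with h2 | h2
    · refine no_overlap G hb' hc' hbc (l := m / l) (div_pos_of_neg_of_neg h2 h1) ?_
      rw [hl, hm, smul_smul, div_mul_cancel₀ _ hl0]
    · exact no_overlap G ha' hc' hac h2 hm
  · exact no_overlap G ha' hb' hab h1 hl

/-- every vector is minus a sum of `⌊|z|⌋ + 2` unit vectors -/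
lemma exists_rays (z : Plane) : ∃ r : Fin ⌊‖z‖⌋₊ ⊕ Fin 2 → Plane, (∀ i, ‖r i‖ = 1) ∧
    ∑ i, r i = - z := by
  have he : ∃ e : Plane, ‖e‖ = 1 ∧ - z = ‖z‖ • e := by
    by_cases hz : z = 0
    · refine ⟨EuclideanSpace.single 0 1, by simp, ?_⟩
      simp [hz]
    · refine ⟨- (‖z‖⁻¹ • z), ?_, ?_⟩
      · rw [norm_neg, norm_smul, norm_inv, norm_norm, inv_mul_cancel₀ (norm_ne_zero_iff.mpr hz)]
      · rw [smul_neg, smul_smul, mul_inv_cancel₀ (norm_ne_zero_iff.mpr hz), one_smul]
  obtain ⟨e, he1, he2⟩ := he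
  set k := ⌊‖z‖⌋₊ with hk
  set ρ : ℝ := ‖z‖ - k with hρ
  have hρ0 : 0 ≤ ρ := by
    have := Nat.floor_le (norm_nonneg z)
    rw [hρ]; linarith
  have hρ1 : ρ ≤ 1 := by
    have := Nat.lt_floor_add_one ‖z‖
    rw [hρ]; linarith
  set h : ℝ := Real.sqrt (1 - ρ ^ 2 / 4) with hh
  have hh2 : h ^ 2 = 1 - ρ ^ 2 / 4 := by
    rw [hh, Real.sq_sqrt]; nlinarith
  let f : Plane := !₂[- e 1, e 0]
  have hes : e 0 ^ 2 + e 1 ^ 2 = 1 := by rw [← norm_sq, he1]; norm_num
  have hunit : ∀ a b : ℝ, a ^ 2 + b ^ 2 = 1 → ‖a • e + b • f‖ = 1 := by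
    intro a b hab
    have h1 : ‖a • e + b • f‖ ^ 2 = 1 := by
      rw [norm_sq]
      have e0 : (a • e + b • f) 0 = a * e 0 - b * e 1 := by simp [f]; ring
      have e1 : (a • e + b • f) 1 = a * e 1 + b * e 0 := by simp [f]
      rw [e0, e1]
      have : (a * e 0 - b * e 1) ^ 2 + (a * e 1 + b * e 0) ^ 2
          = (a ^ 2 + b ^ 2) * (e 0 ^ 2 + e 1 ^ 2) := by ring
      rw [this, hab, hes]; norm_num
    have h2 := norm_nonneg (a • e + b • f)
    nlinarith
  refine ⟨Sum.elim (fun _ => e) ![(ρ / 2) • e + h • f, (ρ / 2) • e + (-h) • f], ?_, ?_⟩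
  · rintro (i | i)
    · simpa using he1
    · fin_cases i
      · exact hunit _ _ (by rw [hh2]; ring)
      · exact hunit _ _ (by rw [neg_sq, hh2]; ring)
  · rw [Fintype.sum_sum_type]
    simp only [Sum.elim_inl, Sum.elim_inr, Finset.sum_const, Finset.card_univ, Fintype.card_fin,
      Fin.sum_univ_two, Matrix.cons_val_zero, Matrix.cons_val_one]
    rw [he2]
    have h3 : ‖z‖ = k + ρ := by rw [hρ]; ring
    rw [h3, ← Nat.cast_smul_eq_nsmul ℝ]
    module

/-! ### A generic frame -/

/-- the coordinate along `(1, t)`, normalised -/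
noncomputable def fx (t : ℝ) : Plane →ₗ[ℝ] ℝ where
  toFun p := (p 0 + t * p 1) / Real.sqrt (1 + t ^ 2)
  map_add' p q := by simp; ring
  map_smul' c p := by simp; ring

/-- the coordinate along `(-t, 1)`, normalised -/
noncomputable def fy (t : ℝ) : Plane →ₗ[ℝ] ℝ where
  toFun p := (- t * p 0 + p 1) / Real.sqrt (1 + t ^ 2)
  map_add' p q := by simp; ring
  map_smul' c p := by simp; ring

lemma fx_apply (t : ℝ) (p : Plane) : fx t p = (p 0 + t * p 1) / Real.sqrt (1 + t ^ 2) := rfl
lemma fy_apply (t : ℝ) (p : Plane) : fy t p = (- t * p 0 + p 1) / Real.sqrt (1 + t ^ 2) := rfl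

lemma fxy (t : ℝ) (p : Plane) : fx t p ^ 2 + fy t p ^ 2 = ‖p‖ ^ 2 := by
  have h1 : 0 < 1 + t ^ 2 := by positivity
  rw [fx_apply, fy_apply, div_pow, div_pow, Real.sq_sqrt h1.le, norm_sq]
  field_simp
  ring

lemma fcross (t : ℝ) (d e : Plane) : fx t d * fy t e - fy t d * fx t e = cross d e := by
  have h1 : 0 < 1 + t ^ 2 := by positivity
  have h2 := Real.sq_sqrt h1.le
  have h3 : Real.sqrt (1 + t ^ 2) ≠ 0 := (Real.sqrt_pos.mpr h1).ne'
  rw [fx_apply, fy_apply, fx_apply, fy_apply]
  unfold cross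
  field_simp
  rw [h2]
  ring

lemma exists_generic (D : Finset Plane) (hD : ∀ d ∈ D, d ≠ 0) :
    ∃ t : ℝ, ∀ d ∈ D, fx t d ≠ 0 ∧ fy t d ≠ 0 := by
  obtain ⟨t, ht⟩ := Infinite.exists_notMem_finset
    (D.image (fun d => - d 0 / d 1) ∪ D.image (fun d => d 1 / d 0))
  refine ⟨t, fun d hd => ?_⟩
  have hdne := hD d hd
  have h1 : 0 < 1 + t ^ 2 := by positivity
  have h3 : Real.sqrt (1 + t ^ 2) ≠ 0 := (Real.sqrt_pos.mpr h1).ne'
  rw [Finset.mem_union, not_or, Finset.mem_image, Finset.mem_image] at ht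
  constructor
  · rw [fx_apply]
    intro h
    rw [div_eq_zero_iff] at h
    rcases h with h | h
    · by_cases hd1 : d 1 = 0
      · rw [hd1] at h
        apply hdne
        ext i
        fin_cases i
        · simpa using h
        · simpa using hd1
      · apply ht.1
        refine ⟨d, hd, ?_⟩
        rw [div_eq_iff hd1]
        linarith
    · exact h3 h
  · rw [fy_apply]
    intro h
    rw [div_eq_zero_iff] at h
    rcases h with h | h
    · by_cases hd0 : d 0 = 0
      · rw [hd0] at h
        apply hdne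
        ext i
        fin_cases i
        · simpa using hd0
        · simpa using h
      · apply ht.2
        refine ⟨d, hd, ?_⟩
        rw [div_eq_iff hd0]
        linarith
    · exact h3 h

/-! ### The main theorem -/

/-- index type of the balancing rays -/
abbrev RayIx (G : GeodesicNet) : Type :=
  Σ w : {w : Plane // w ∈ G.unbalanced}, (Fin ⌊‖imbalanceVector G.V G.E w.1‖⌋₊ ⊕ Fin 2)

lemma card_rayIx (G : GeodesicNet) (n : ℕ) (I : NNReal) (hn : G.unbalanced.card = n)
    (hI : G.totalImbalance ≤ I) : Fintype.card (RayIx G) ≤ ⌊(I : ℝ)⌋₊ + 2 * n := by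
  unfold RayIx
  rw [Fintype.card_sigma]
  simp only [Fintype.card_sum, Fintype.card_fin]
  rw [Finset.sum_add_distrib]
  have h1 : ∑ x : {w : Plane // w ∈ G.unbalanced}, ⌊‖imbalanceVector G.V G.E x.1‖⌋₊ ≤ ⌊(I : ℝ)⌋₊ := by
    apply Nat.le_floor
    push_cast
    have h2 : ∑ x : {w : Plane // w ∈ G.unbalanced}, (⌊‖imbalanceVector G.V G.E x.1‖⌋₊ : ℝ) ≤
        ∑ x : {w : Plane // w ∈ G.unbalanced}, ‖imbalanceVector G.V G.E x.1‖ :=
      Finset.sum_le_sum (fun x _ => Nat.floor_le (norm_nonneg _))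
    refine h2.trans ?_
    rw [Finset.sum_coe_sort G.unbalanced (fun w => ‖imbalanceVector G.V G.E w‖)]
    exact hI
  have h3 : ∑ _x : {w : Plane // w ∈ G.unbalanced}, 2 = 2 * n := by
    rw [Finset.sum_const, Finset.card_univ, Fintype.card_coe, hn, smul_eq_mul, mul_comm]
  omega

theorem result : ∃ F : ℕ → NNReal → ℕ, ∀ (G : GeodesicNet) (n : ℕ) (I : NNReal),
    G.unbalanced.card = n → G.totalImbalance ≤ I → G.balanced.card ≤ F n I := by
  choose C hC using GeoNet.word_bound
  refine ⟨fun n I => 2 * C (⌊(I : ℝ)⌋₊ + 2 * n), ?_⟩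
  intro G n I hn hI
  set N := ⌊(I : ℝ)⌋₊ + 2 * n with hN
  -- balancing rays
  choose r hr1 hr2 using fun w : Plane => exists_rays (imbalanceVector G.V G.E w)
  have hcard : Fintype.card (RayIx G) ≤ N := card_rayIx G n I hn hI
  let base : RayIx G → Plane := fun k => k.1.1
  let ray : RayIx G → Plane := fun k => r k.1.1 k.2
  have hray : ∀ k, ‖ray k‖ = 1 := fun k => hr1 k.1.1 k.2
  have hbase : ∀ k, base k ∈ G.V := fun k => (Finset.mem_filter.mp k.1.2).1
  -- generic frame
  obtain ⟨t, ht⟩ := exists_generic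
    (((G.V ×ˢ G.V).image (fun p => p.2 - p.1)).filter (fun d => d ≠ 0) ∪
      Finset.univ.image ray) (by
      intro d hd
      rw [Finset.mem_union, Finset.mem_filter, Finset.mem_image, Finset.mem_image] at hd
      rcases hd with hd | ⟨k, _, rfl⟩
      · exact hd.2
      · intro h0
        have := hray k
        rw [h0, norm_zero] at this
        exact zero_ne_one this)
  have hadj : ∀ p q, s(p, q) ∈ G.E → fx t (q - p) ≠ 0 ∧ fy t (q - p) ≠ 0 := by
    intro p q hpq
    apply ht
    rw [Finset.mem_union]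
    left
    rw [Finset.mem_filter, Finset.mem_image]
    have hm := G.endpoints p q hpq
    exact ⟨⟨(p, q), Finset.mem_product.mpr hm, rfl⟩,
      sub_ne_zero.mpr (fun h => G.nondegenerate p q hpq h.symm)⟩
  have hrayxy : ∀ k, fx t (ray k) ≠ 0 ∧ fy t (ray k) ≠ 0 := by
    intro k
    apply ht
    rw [Finset.mem_union]
    right
    exact Finset.mem_image_of_mem _ (Finset.mem_univ _)
  have hbal : ∀ v ∈ G.V, ∑ q ∈ G.V with s(v, q) ∈ G.E, ‖q - v‖⁻¹ • (q - v) +
      ∑ k with base k = v, ray k = 0 := by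
    intro v hv
    have h1 : ∑ q ∈ G.V with s(v, q) ∈ G.E, ‖q - v‖⁻¹ • (q - v) = imbalanceVector G.V G.E v := rfl
    rw [h1, Finset.sum_filter, Fintype.sum_sigma]
    have h2 : ∀ w : {w : Plane // w ∈ G.unbalanced},
        (∑ i, (if base ⟨w, i⟩ = v then ray ⟨w, i⟩ else 0)) =
        (fun w : Plane => if w = v then - imbalanceVector G.V G.E w else 0) w := by
      intro w
      by_cases hw : w.1 = v
      · have : ∀ i, base ⟨w, i⟩ = v := fun i => hw
        simp only [this, if_true]
        rw [if_pos hw]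
        exact hr2 w.1
      · have : ∀ i, base ⟨w, i⟩ ≠ v := fun i => hw
        simp only [this, if_false]
        rw [if_neg hw]
        simp
    rw [Finset.sum_congr rfl (fun w _ => h2 w), Finset.sum_coe_sort G.unbalanced
      (fun w : Plane => if w = v then - imbalanceVector G.V G.E w else 0), Finset.sum_ite_eq']
    by_cases hvU : v ∈ G.unbalanced
    · rw [if_pos hvU]; simp
    · rw [if_neg hvU, add_zero]
      by_contra hne
      exact hvU (Finset.mem_filter.mpr ⟨hv, hne⟩)
  let S1 : GeoNet.Fr (RayIx G) :=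
    { x := fx t
      y := fy t
      hxy := fxy t
      V := G.V
      Adj := fun p q => s(p, q) ∈ G.E
      symm := fun p q h => by rw [Sym2.eq_swap]; exact h
      mem := fun p q h => G.endpoints p q h
      hx := fun p q h => (hadj p q h).1
      base := base
      hbase := hbase
      r := ray
      hr := hray
      hrx := fun k => (hrayxy k).1
      bal := by intro v hv; convert hbal v hv }
  let S2 : GeoNet.Fr (RayIx G) :=
    { x := fy t
      y := fx t
      hxy := fun p => by rw [add_comm]; exact fxy t p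
      V := G.V
      Adj := fun p q => s(p, q) ∈ G.E
      symm := fun p q h => by rw [Sym2.eq_swap]; exact h
      mem := fun p q h => G.endpoints p q h
      hx := fun p q h => (hadj p q h).2
      base := base
      hbase := hbase
      r := ray
      hr := hray
      hrx := fun k => (hrayxy k).2
      bal := by intro v hv; convert hbal v hv }
  have c1 := S1.card_rel_le (hC N) hcard
  have c2 := S2.card_rel_le (hC N) hcard
  have hsub : G.balanced ⊆ (G.V.filter (fun v => S1.Rel v)) ∪ (G.V.filter (fun v => S2.Rel v)) := by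
    intro v hv
    have hvV := (Finset.mem_filter.mp hv).1
    have hvb := (Finset.mem_filter.mp hv).2
    obtain ⟨q, q', h1, h2, h3⟩ := exists_nonparallel G (G.degree_balanced v hvV hvb)
    have hq := hadj v q h1
    have hq' := hadj v q' h2
    rw [← fcross t] at h3
    rw [Finset.mem_union, Finset.mem_filter, Finset.mem_filter]
    by_cases hs : |fy t (q - v) / fx t (q - v)| ≤ 1
    · left
      refine ⟨hvV, q, q', h1, h2, ?_, hs⟩
      show fy t (q - v) / fx t (q - v) ≠ fy t (q' - v) / fx t (q' - v)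
      rw [Ne, div_eq_div_iff hq.1 hq'.1]
      intro h
      apply h3
      linarith
    · right
      push Not at hs
      refine ⟨hvV, q, q', h1, h2, ?_, ?_⟩
      · show fx t (q - v) / fy t (q - v) ≠ fx t (q' - v) / fy t (q' - v)
        rw [Ne, div_eq_div_iff hq.2 hq'.2]
        intro h
        apply h3
        linarith
      · show |fx t (q - v) / fy t (q - v)| ≤ 1
        rw [← inv_div, abs_inv]
        exact inv_le_one_of_one_le₀ hs.le
  calc G.balanced.card ≤ _ := Finset.card_le_card hsub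
    _ ≤ _ := Finset.card_union_le _ _
    _ ≤ C N + C N := Nat.add_le_add c1 c2
    _ = 2 * C N := by ring

end Pool.Agent.Results.MP_b48dd4_gt.GromovBound
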